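import Pool.Agent.W788.NW.Stm

/-!
# Pointwise form of the gradient bound
-/

set_option autoImplicit false

namespace Pool.Agent.W82.NW

open Finset Pool.Agent.W788.NV Pool.Agent.W788.NW

theorem gr1_ (h : MK) (h1 : S_SPI) (h2 : S_CNT) (h3 : S_TOT) : S_GR1 := by
  intro V _ _ G q θ Δ hq hθ0 hθ1 hd1 hdD a b f x v t ht
  have hr : ∀ e, 0 ≤ srate G q θ e := by
    have h4 := (h3 V G q θ hq hθ0 hθ1 hd1).1
    intro e
    cases e with
    | inl e => exact h4 e
    | inr w => exact h4 (Sum.inr w)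
  obtain ⟨F, hF⟩ : ∃ F : V → V × Mp V q → ℝ, F = fun w p => if p.1 = v then
      f (Function.update (p.2 x) w a) - f (Function.update (p.2 x) w b) else 0 := ⟨_, rfl⟩
  obtain ⟨I, hI⟩ : ∃ I : V × Mp V q → ℝ, I = fun p => if p.1 = v then 1 else 0 := ⟨_, rfl⟩
  have e1 := h1 V G q θ hq hθ0 hθ1 hd1 a b f x v t
  have e2 := h2 V G q θ Δ hq hθ0 hθ1 hd1 hdD a b v t ht
  have hFI : ∀ w, (fun p => I p * F w p) = F w := by
    intro w
    funext p
    rw [hI, hF]
    simp only
    split_ifs <;> simp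
  have hI2 : (fun p => I p ^ 2) = I := by
    funext p
    rw [hI]
    simp only
    split_ifs <;> simp
  have hF2 : ∀ w, (fun p => F w p ^ 2) = fun p => if p.1 = v then
      (f (Function.update (p.2 x) w a) - f (Function.update (p.2 x) w b)) ^ 2 else 0 := by
    intro w
    funext p
    rw [hF]
    simp only
    split_ifs <;> simp
  have hcs : ∀ w, (sx G q θ a b t (F w) (st w a)) ^ 2 ≤
      sx G q θ a b t I (st w a) * sx G q θ a b t (fun p => F w p ^ 2) (st w a) := by
    intro w
    have := h.cs (V × Mp V q) _ (srate G q θ) (sm (V := V) a b) I (F w) (st w a) t hr ht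
    rw [hFI w, hI2] at this
    exact this
  have hA : ∀ w, 0 ≤ sx G q θ a b t I (st w a) := by
    intro w
    have := h.mono (V × Mp V q) _ (srate G q θ) (sm (V := V) a b) (fun _ => 0) I (st w a) t hr ht
      (by
        intro y
        rw [hI]
        simp only
        split_ifs <;> simp)
    rw [h.cst] at this
    exact this
  have hB : ∀ w, 0 ≤ sx G q θ a b t (fun p => F w p ^ 2) (st w a) := by
    intro w
    have := h.mono (V × Mp V q) _ (srate G q θ) (sm (V := V) a b) (fun _ => 0)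
      (fun p => F w p ^ 2) (st w a) t hr ht (fun y => sq_nonneg _)
    rw [h.cst] at this
    exact this
  have hsum : (∑ w, sx G q θ a b t (F w) (st w a)) ^ 2 ≤
      (∑ w, sx G q θ a b t I (st w a)) *
        ∑ w, sx G q θ a b t (fun p => F w p ^ 2) (st w a) := by
    have hle : |∑ w, sx G q θ a b t (F w) (st w a)| ≤
        ∑ w, Real.sqrt (sx G q θ a b t I (st w a)) *
          Real.sqrt (sx G q θ a b t (fun p => F w p ^ 2) (st w a)) := by
      refine le_trans (Finset.abs_sum_le_sum_abs _ _) (Finset.sum_le_sum fun w _ => ?_)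
      rw [← Real.sqrt_mul (hA w)]
      exact Real.abs_le_sqrt (hcs w)
    have hcs2 := Finset.sum_mul_sq_le_sq_mul_sq (Finset.univ : Finset V)
      (fun w => Real.sqrt (sx G q θ a b t I (st w a)))
      (fun w => Real.sqrt (sx G q θ a b t (fun p => F w p ^ 2) (st w a)))
    have s1 : ∑ w, Real.sqrt (sx G q θ a b t I (st w a)) ^ 2 =
        ∑ w, sx G q θ a b t I (st w a) :=
      Finset.sum_congr rfl fun w _ => Real.sq_sqrt (hA w)
    have s2 : ∑ w, Real.sqrt (sx G q θ a b t (fun p => F w p ^ 2) (st w a)) ^ 2 =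
        ∑ w, sx G q θ a b t (fun p => F w p ^ 2) (st w a) :=
      Finset.sum_congr rfl fun w _ => Real.sq_sqrt (hB w)
    rw [s1, s2] at hcs2
    refine le_trans ?_ hcs2
    rw [← sq_abs]
    exact pow_le_pow_left₀ (abs_nonneg _) hle 2
  have hA2 : ∑ w, sx G q θ a b t I (st w a) ≤ Δ := by
    rw [hI]
    exact e2
  have hB2 : 0 ≤ ∑ w, sx G q θ a b t (fun p => F w p ^ 2) (st w a) :=
    Finset.sum_nonneg fun w _ => hB w
  have e1' : pt G q θ t f (Function.update x v a) - pt G q θ t f (Function.update x v b) =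
      Real.exp (-θ * t) * ∑ w, sx G q θ a b t (F w) (st w a) := by
    rw [hF]
    exact e1
  have hexp : Real.exp (-θ * t) ^ 2 = Real.exp (-2 * θ * t) := by
    rw [sq, ← Real.exp_add]
    congr 1
    ring
  rw [e1', mul_pow, hexp]
  have hgoal : ∑ w, sx G q θ a b t (fun p => F w p ^ 2) (st w a) =
      ∑ w, sx G q θ a b t (fun p => if p.1 = v then
        (f (Function.update (p.2 x) w a) - f (Function.update (p.2 x) w b)) ^ 2 else 0)
        (st w a) := Finset.sum_congr rfl fun w _ => by rw [hF2 w]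
  rw [← hgoal]
  have hpos := Real.exp_pos (-2 * θ * t)
  calc Real.exp (-2 * θ * t) * (∑ w, sx G q θ a b t (F w) (st w a)) ^ 2
      ≤ Real.exp (-2 * θ * t) * ((∑ w, sx G q θ a b t I (st w a)) *
        ∑ w, sx G q θ a b t (fun p => F w p ^ 2) (st w a)) :=
        mul_le_mul_of_nonneg_left hsum hpos.le
    _ ≤ Real.exp (-2 * θ * t) * ((Δ : ℝ) *
        ∑ w, sx G q θ a b t (fun p => F w p ^ 2) (st w a)) :=
        mul_le_mul_of_nonneg_left (mul_le_mul_of_nonneg_right hA2 hB2) hpos.le
    _ = (Δ : ℝ) * Real.exp (-2 * θ * t) *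
        ∑ w, sx G q θ a b t (fun p => F w p ^ 2) (st w a) := by ring

end Pool.Agent.W82.NW
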